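import Pool.Agent.H964R2.Lang.Dense

/-!
# Double covers of powers of an elliptic curve of positive rank with exactly two rational points

`E : y² = x³ - 23 x` has infinitely many rational points (`E(ℚ) = ℤ ⊕ ℤ/2`), so the rational points
of `E^r` are Zariski dense. For all `r, m ≥ 1` the double covers `w² = F(x₁, y₁, …, x_r, y_r)` of
`E^r`, where `F` runs over the regular functions on `(E ∖ O)^r` with poles of order at most `4m`
along each divisor `P_i = O`, are varieties of general type for general `F`. Those with exactly two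
rational points outside the divisors `P_i = O` (both of them smooth points) are Zariski dense.
-/

namespace Pool.Agent.Results.MP_2ae8fe_ag.DoubleCovers

open Pool.Agent.H964R2.Lang MvPolynomial

/-- For all `r` and all `m ≥ 1`, the coefficient vectors `c` for which the affine variety
`y_i² = x_i³ - 23 x_i` (`i = 1, …, r`), `w² = F_c(x, y)`, has exactly the two rational points
`(0, …, 0, ± n)`, for some `n ≠ 0`, form a Zariski dense subset of the affine space of all
coefficient vectors. -/
theorem result (r m : ℕ) (hm : 0 < m) (Ψ : MvPolynomial (Fin r → Mon m) ℚ) (hΨ : Ψ ≠ 0) :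
    ∃ (c : (Fin r → Mon m) → ℚ) (n : ℚ), n ≠ 0 ∧ eval c Ψ ≠ 0 ∧
      {q : (Fin r → ℚ) × (Fin r → ℚ) × ℚ |
        (∀ i, q.2.1 i ^ 2 = q.1 i ^ 3 - 23 * q.1 i) ∧ q.2.2 ^ 2 = fn c q.1 q.2.1} =
      {((0 : Fin r → ℚ), (0 : Fin r → ℚ), n), (0, 0, -n)} :=
  dense hm Ψ hΨ

end Pool.Agent.Results.MP_2ae8fe_ag.DoubleCovers
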